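import Pool.Agent.Q266.RP.Stm3

/-!
# Project RP (helper266), job ODDPAIR

A noncommutative finite p-group, p odd, in which at most p central elements t have t ^ p = 1,
has a Pair.  The statements proved in other files enter as hypotheses.
-/

set_option autoImplicit false

namespace Pool.Agent.Q224.RPB

open Pool.Agent.Q266.RP Finset

/-- If at most `p` elements satisfy `P` and all elements of `zpowers z` do, `z` of order `p`,
then only these do. -/
lemma mem_zpowers_of_small {p : ℕ} {G : Type} [Group G] [Finite G] (P : G → Prop) {z : G}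
    (hzo : orderOf z = p) (hP : ∀ t ∈ Subgroup.zpowers z, P t)
    (hc : Nat.card {t : G // P t} ≤ p) {t : G} (ht : P t) : t ∈ Subgroup.zpowers z := by
  let f : Subgroup.zpowers z → {t : G // P t} := fun t => ⟨t, hP t t.2⟩
  have hfi : Function.Injective f := fun a b h => Subtype.ext (congrArg
    (fun s : {t : G // P t} => (s : G)) h)
  have hcz : Nat.card (Subgroup.zpowers z) = p := by rw [Nat.card_zpowers, hzo]
  have hbij : Function.Bijective f := by
    rw [Nat.bijective_iff_injective_and_card]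
    exact ⟨hfi, le_antisymm (Nat.card_le_card_of_injective f hfi) (hcz ▸ hc)⟩
  obtain ⟨s, hs⟩ := hbij.2 ⟨t, ht⟩
  have : (s : G) = t := congrArg Subtype.val hs
  rw [← this]
  exact s.2

lemma pow_of_mem_zpowers {p : ℕ} {G : Type} [Group G] {z t : G} (hzo : orderOf z = p)
    (ht : t ∈ Subgroup.zpowers z) : t ^ p = 1 := by
  obtain ⟨n, rfl⟩ := ht
  show (z ^ n) ^ p = 1
  rw [← zpow_natCast, ← zpow_mul, mul_comm, zpow_mul, zpow_natCast, ← hzo, pow_orderOf_eq_one,
    one_zpow]

lemma cen_of_mem_zpowers {G : Type} [Group G] {z t : G} (hzc : z ∈ Subgroup.center G)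
    (ht : t ∈ Subgroup.zpowers z) : t ∈ Subgroup.center G := by
  obtain ⟨n, rfl⟩ := ht
  exact Subgroup.zpow_mem _ hzc n

/-- all central `t` with `t ^ p = 1` are in `zpowers z` -/
lemma cen_gen {p : ℕ} {G : Type} [Group G] [Finite G] (hc : CenSmall p G) {z : G}
    (hzc : z ∈ Subgroup.center G) (hzo : orderOf z = p) {t : G} (ht : t ∈ Subgroup.center G)
    (htp : t ^ p = 1) : t ∈ Subgroup.zpowers z :=
  mem_zpowers_of_small (fun t => t ∈ Subgroup.center G ∧ t ^ p = 1) hzo
    (fun _ h => ⟨cen_of_mem_zpowers hzc h, pow_of_mem_zpowers hzo h⟩) hc ⟨ht, htp⟩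

lemma exists_center_order {p : ℕ} [hp : Fact p.Prime] {G : Type} [Group G] [Finite G]
    [Nontrivial G] (hG : IsPGroup p G) : ∃ z ∈ Subgroup.center G, orderOf z = p := by
  have hcn : Nontrivial (Subgroup.center G) := hG.center_nontrivial
  have hdvd : p ∣ Nat.card (Subgroup.center G) := by
    obtain ⟨n, hn0, hn⟩ := (hG.to_subgroup (Subgroup.center G)).nontrivial_iff_card.mp hcn
    exact hn.symm ▸ dvd_pow_self _ (ne_of_gt hn0)
  obtain ⟨z', hz'⟩ := exists_prime_orderOf_dvd_card' (G := Subgroup.center G) p hdvd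
  exact ⟨z', z'.2, by rw [Subgroup.orderOf_coe, hz']⟩

/-! ### cyclic groups -/

/-- at most `p ^ k` solutions of `g ^ (p ^ k) = 1` -/
lemma card_omega {p : ℕ} {G : Type} [Group G] [Fintype G] [DecidableEq G] (hP : PowAll p G)
    (h1 : (univ.filter fun g : G => g ^ p = 1).card ≤ p) (k : ℕ) :
    (univ.filter fun g : G => g ^ (p ^ k) = 1).card ≤ p ^ k := by
  induction k with
  | zero =>
    rw [pow_zero, Finset.card_le_one]
    intro a ha b hb
    rw [mem_filter, pow_one] at ha hb
    rw [ha.2, hb.2]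
  | succ k ih =>
    have h2 := Finset.card_le_mul_card_image (f := fun g : G => g ^ (p ^ k))
      (univ.filter fun g : G => g ^ (p ^ (k + 1)) = 1) (p ^ k) (by
        intro a ha
        obtain ⟨g, hg, rfl⟩ := mem_image.1 ha
        refine (Finset.card_le_card_of_injOn (fun x => g⁻¹ * x) ?_ ?_).trans ih
        · intro x hx
          have hx2 := (mem_filter.1 hx).2
          simp only [coe_filter, mem_univ, true_and, Set.mem_setOf_eq]
          exact (hP k g x).1 hx2.symm
        · intro x _ y _ hxy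
          exact mul_left_cancel hxy)
    have h3 : ((univ.filter fun g : G => g ^ (p ^ (k + 1)) = 1).image
        fun g : G => g ^ (p ^ k)).card ≤ p := by
      refine (Finset.card_le_card ?_).trans h1
      intro a ha
      obtain ⟨g, hg, rfl⟩ := mem_image.1 ha
      rw [mem_filter]
      refine ⟨mem_univ _, ?_⟩
      rw [← pow_mul, ← pow_succ]
      exact (mem_filter.1 hg).2
    calc _ ≤ _ := h2
      _ ≤ p ^ k * p := Nat.mul_le_mul_left _ h3
      _ = p ^ (k + 1) := (pow_succ p k).symm

/-- a finite commutative `p`-group with at most `p` solutions of `g ^ p = 1` is cyclic -/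
lemma cyclic_of_small {p : ℕ} [hp : Fact p.Prime] {G : Type} [Group G] [Finite G]
    (hG : IsPGroup p G) (hcom : ∀ a b : G, a * b = b * a)
    (hc : Nat.card {g : G // g ^ p = 1} ≤ p) : IsCyclic G := by
  classical
  have hP : PowAll p G := by
    intro k a b
    have h1 : (a⁻¹ * b) ^ (p ^ k) = (a ^ (p ^ k))⁻¹ * b ^ (p ^ k) := by
      have hab : Commute a⁻¹ b := hcom _ _
      rw [hab.mul_pow, inv_pow]
    rw [h1, inv_mul_eq_one]
  have _ := Fintype.ofFinite G
  have h1 : (univ.filter fun g : G => g ^ p = 1).card ≤ p := by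
    rw [Nat.card_eq_fintype_card, Fintype.card_subtype] at hc
    exact hc
  refine isCyclic_of_card_pow_eq_one_le fun n hn => ?_
  obtain ⟨k, m, hm, rfl⟩ := Nat.exists_eq_pow_mul_and_not_dvd hn.ne' p hp.out.ne_one
  have hm0 : 0 < m := Nat.pos_of_ne_zero fun h => hm (h ▸ dvd_zero p)
  have h2 : (univ.filter fun g : G => g ^ (p ^ k * m) = 1) ⊆
      univ.filter fun g : G => g ^ (p ^ k) = 1 := by
    intro g hg
    rw [mem_filter] at hg ⊢
    refine ⟨mem_univ _, ?_⟩
    obtain ⟨j, hj⟩ := (IsPGroup.iff_orderOf.1 hG) g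
    have h3 := orderOf_dvd_of_pow_eq_one hg.2
    rw [← orderOf_dvd_iff_pow_eq_one]
    refine Nat.Coprime.dvd_of_dvd_mul_right ?_ h3
    rw [hj]
    exact Nat.Coprime.pow_left j ((Nat.Prime.coprime_iff_not_dvd hp.out).2 hm)
  calc _ ≤ _ := Finset.card_le_card h2
    _ ≤ p ^ k := card_omega hP h1 k
    _ ≤ p ^ k * m := Nat.le_mul_of_pos_right _ hm0

/-! ### the second center modulo `zpowers z` -/

lemma zp_normal {G : Type} [Group G] {z : G} (hzc : z ∈ Subgroup.center G) :
    (Subgroup.zpowers z).Normal := by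
  constructor
  intro t ht g
  have h := Subgroup.mem_center_iff.1 (cen_of_mem_zpowers hzc ht) g
  rw [h, mul_inv_cancel_right]
  exact ht

/-- `{g | ∀ h, [g, h] ∈ zpowers z}` -/
def Xs {G : Type} [Group G] (z : G) (hzc : z ∈ Subgroup.center G) : Subgroup G where
  carrier := {g | ∀ h, g * h * g⁻¹ * h⁻¹ ∈ Subgroup.zpowers z}
  one_mem' := by
    intro h
    have : (1 : G) * h * 1⁻¹ * h⁻¹ = 1 := by group
    rw [this]
    exact Subgroup.one_mem _
  mul_mem' := by
    intro a b ha hb h
    have : a * b * h * (a * b)⁻¹ * h⁻¹ =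
        (a * (b * h * b⁻¹) * a⁻¹ * (b * h * b⁻¹)⁻¹) * (b * h * b⁻¹ * h⁻¹) := by group
    rw [this]
    exact Subgroup.mul_mem _ (ha _) (hb _)
  inv_mem' := by
    intro a ha h
    have h1 := (zp_normal hzc).conj_mem _ (Subgroup.inv_mem _ (ha h)) a⁻¹
    have : a⁻¹ * h * a⁻¹⁻¹ * h⁻¹ = a⁻¹ * (a * h * a⁻¹ * h⁻¹)⁻¹ * a⁻¹⁻¹ := by group
    rw [this]
    exact h1

lemma mem_Xs {G : Type} [Group G] {z : G} (hzc : z ∈ Subgroup.center G) (g : G) :
    g ∈ Xs z hzc ↔ ∀ h, g * h * g⁻¹ * h⁻¹ ∈ Subgroup.zpowers z := Iff.rfl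

lemma Xs_normal {G : Type} [Group G] {z : G} (hzc : z ∈ Subgroup.center G) :
    (Xs z hzc).Normal := by
  constructor
  intro g hg k
  rw [mem_Xs] at hg ⊢
  intro h
  have : k * g * k⁻¹ * h * (k * g * k⁻¹)⁻¹ * h⁻¹ =
      k * (g * (k⁻¹ * h * k) * g⁻¹ * (k⁻¹ * h * k)⁻¹) * k⁻¹ := by group
  rw [this]
  exact (zp_normal hzc).conj_mem _ (hg _) k

lemma Xs_class {G : Type} [Group G] {z : G} (hzc : z ∈ Subgroup.center G) (n : ℕ) (hn : 2 ≤ n) :
    (⊤ : Subgroup (Xs z hzc)).lowerCentralSeries n = ⊥ := by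
  rw [eq_bot_iff]
  refine (Subgroup.lowerCentralSeries_antitone (⊤ : Subgroup (Xs z hzc)) hn).trans ?_
  rw [Subgroup.lowerCentralSeries_succ, Subgroup.lowerCentralSeries_succ,
    Subgroup.lowerCentralSeries_zero, Subgroup.commutator_le]
  intro a ha b _
  have h1 : ⁅(⊤ : Subgroup (Xs z hzc)), ⊤⁆ ≤ Subgroup.center (Xs z hzc) := by
    rw [Subgroup.commutator_le]
    intro c _ d _
    rw [Subgroup.mem_center_iff]
    intro e
    apply Subtype.ext
    have h2 := c.2 (d : G)
    exact Subgroup.mem_center_iff.1 (cen_of_mem_zpowers hzc h2) e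
  have h2 := Subgroup.mem_center_iff.1 (h1 ha) b
  rw [Subgroup.mem_bot, commutatorElement_eq_one_iff_mul_comm]
  exact h2.symm

/-- if `[g, h]` is always central and `g ^ p` is central, then `[g, h] ^ p = 1` -/
lemma comm_pow {p : ℕ} {G : Type} [Group G] {g h : G}
    (h1 : g * h * g⁻¹ * h⁻¹ ∈ Subgroup.center G) (h2 : g ^ p ∈ Subgroup.center G) :
    (g * h * g⁻¹ * h⁻¹) ^ p = 1 := by
  set c : G := g * h * g⁻¹ * h⁻¹ with hc
  clear_value c
  have h3 : ∀ n : ℕ, g ^ n * h * (g ^ n)⁻¹ = c ^ n * h := by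
    intro n
    induction n with
    | zero => simp
    | succ n ih =>
      have h4 : g ^ (n + 1) * h * (g ^ (n + 1))⁻¹ = g * (g ^ n * h * (g ^ n)⁻¹) * g⁻¹ := by
        rw [pow_succ']
        group
      have h5 : g * c ^ n = c ^ n * g := Subgroup.mem_center_iff.1 (Subgroup.pow_mem _ h1 n) g
      have h6 : g * h * g⁻¹ = c * h := by rw [hc]; group
      rw [h4, ih]
      calc g * (c ^ n * h) * g⁻¹ = (g * c ^ n) * h * g⁻¹ := by simp only [mul_assoc]
        _ = c ^ n * g * h * g⁻¹ := by rw [h5]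
        _ = c ^ n * (g * h * g⁻¹) := by simp only [mul_assoc]
        _ = c ^ n * (c * h) := by rw [h6]
        _ = c ^ (n + 1) * h := by rw [pow_succ, mul_assoc]
  have h4 := h3 p
  have h5 : h * g ^ p = g ^ p * h := Subgroup.mem_center_iff.1 h2 h
  rw [← h5, mul_inv_cancel_right] at h4
  exact (mul_eq_right.1 h4.symm)

lemma exists_noncentral {p : ℕ} [hp : Fact p.Prime] {G : Type} [Group G] [Finite G]
    (hG : IsPGroup p G) (hc : CenSmall p G) {z : G} (hzc : z ∈ Subgroup.center G)
    (hzo : orderOf z = p) (hnc : ¬ ∀ a b : G, a * b = b * a) :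
    ∃ g ∈ Xs z hzc, g ∉ Subgroup.center G := by
  have hnt : Nontrivial (G ⧸ Subgroup.center G) := by
    by_contra hcon
    rw [not_nontrivial_iff_subsingleton] at hcon
    apply hnc
    intro a b
    have hb : b ∈ Subgroup.center G := by
      rw [← QuotientGroup.eq_one_iff]
      exact Subsingleton.elim _ _
    exact Subgroup.mem_center_iff.1 hb a
  obtain ⟨q, hq, hqo⟩ := exists_center_order (hG.to_quotient (Subgroup.center G))
  obtain ⟨g, rfl⟩ := QuotientGroup.mk'_surjective (Subgroup.center G) q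
  set π := QuotientGroup.mk' (Subgroup.center G) with hπ
  have hπ1 : ∀ g, π g = 1 ↔ g ∈ Subgroup.center G := fun g => QuotientGroup.eq_one_iff g
  have hgp : g ^ p ∈ Subgroup.center G := by
    rw [← hπ1, map_pow, ← hqo, pow_orderOf_eq_one]
  have hgc : g ∉ Subgroup.center G := by
    intro h
    rw [← hπ1] at h
    rw [h, orderOf_one] at hqo
    exact hp.out.ne_one hqo.symm
  refine ⟨g, ?_, hgc⟩
  rw [mem_Xs]
  intro h
  have h1 : g * h * g⁻¹ * h⁻¹ ∈ Subgroup.center G := by
    rw [← hπ1, map_mul, map_mul, map_mul, map_inv, map_inv,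
      ← Subgroup.mem_center_iff.1 hq (π h), mul_inv_cancel_right, mul_inv_cancel]
  exact cen_gen hc hzc hzo h1 (comm_pow h1 hgp)

/-- the index of the centralizer of `g0` in `Xs z` is `p`, if `g0` is not central -/
lemma card_centralizer {p : ℕ} [hp : Fact p.Prime] {G : Type} [Group G] [Finite G] {z : G}
    (hzc : z ∈ Subgroup.center G) (hzo : orderOf z = p) {g0 : G} (hg0 : g0 ∈ Xs z hzc)
    (hnc : g0 ∉ Subgroup.center G) :
    Nat.card G = p * Nat.card (Subgroup.centralizer ({g0} : Set G)) := by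
  have hm : ∀ h : G, g0 * h * g0⁻¹ * h⁻¹ ∈ Subgroup.center G := fun h =>
    cen_of_mem_zpowers hzc (hg0 h)
  let f : G →* Subgroup.zpowers z :=
    { toFun := fun h => ⟨g0 * h * g0⁻¹ * h⁻¹, hg0 h⟩
      map_one' := by
        apply Subtype.ext
        show g0 * 1 * g0⁻¹ * 1⁻¹ = 1
        group
      map_mul' := by
        intro a b
        apply Subtype.ext
        show g0 * (a * b) * g0⁻¹ * (a * b)⁻¹ = (g0 * a * g0⁻¹ * a⁻¹) * (g0 * b * g0⁻¹ * b⁻¹)
        have h1 : a * (g0 * b * g0⁻¹ * b⁻¹) = (g0 * b * g0⁻¹ * b⁻¹) * a :=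
          Subgroup.mem_center_iff.1 (hm b) a
        have h2 : g0 * (a * b) * g0⁻¹ * (a * b)⁻¹ =
            (g0 * a * g0⁻¹ * a⁻¹) * (a * (g0 * b * g0⁻¹ * b⁻¹)) * a⁻¹ := by group
        rw [h2, h1]
        group }
  have hker : f.ker = Subgroup.centralizer ({g0} : Set G) := by
    ext h
    rw [MonoidHom.mem_ker, Subgroup.mem_centralizer_singleton_iff]
    constructor
    · intro h1
      have h2 : g0 * h * g0⁻¹ * h⁻¹ = 1 := congrArg Subtype.val h1
      rw [mul_inv_eq_one, mul_inv_eq_iff_eq_mul] at h2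
      exact h2.symm
    · intro h1
      apply Subtype.ext
      show g0 * h * g0⁻¹ * h⁻¹ = 1
      rw [mul_inv_eq_one, mul_inv_eq_iff_eq_mul]
      exact h1.symm
  have hr : Nat.card f.range = p := by
    have h1 : Nat.card f.range ∣ p := by
      have h2 := Subgroup.card_subgroup_dvd_card f.range
      rwa [Nat.card_zpowers, hzo] at h2
    rcases (Nat.dvd_prime hp.out).1 h1 with h2 | h2
    · exfalso
      apply hnc
      rw [Subgroup.mem_center_iff]
      intro h
      have h3 : f.range = ⊥ := Subgroup.card_eq_one.1 h2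
      have h4 : f h = 1 := by
        have : f h ∈ f.range := ⟨h, rfl⟩
        rw [h3] at this
        exact this
      rw [← MonoidHom.mem_ker, hker, Subgroup.mem_centralizer_singleton_iff] at h4
      exact h4
    · exact h2
  rw [← hker, Subgroup.card_eq_card_quotient_mul_card_subgroup f.ker,
    Nat.card_congr (QuotientGroup.quotientKerEquivRange f).toEquiv, hr]

/-- the induction -/
lemma oddpair_aux (h1 : S_NPAIR) (h2 : S_OMX) (h3 : S_CYCP) (h4 : S_CYC) (h5 : S_FALL)
    (h6 : S_CLREG) (p : ℕ) [hp : Fact p.Prime] (hp2 : p ≠ 2) (n : ℕ) :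
    ∀ (G : Type) [Group G] [Finite G], Nat.card G = n → IsPGroup p G →
    CenSmall p G → (¬ ∀ a b : G, a * b = b * a) → ∃ e z : G, Pair p e z := by
  induction n using Nat.strong_induction_on with
  | _ n ih =>
  intro G _ _ hn hG hc hnc
  have hp3 : 2 ≤ p - 1 := by
    have := hp.out.two_le
    omega
  have hnt : Nontrivial G := by
    by_contra hcon
    rw [not_nontrivial_iff_subsingleton] at hcon
    exact hnc fun a b => Subsingleton.elim _ _
  obtain ⟨z, hzc, hzo⟩ := exists_center_order hG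
  by_contra hno
  -- (1)
  have hsm : Nat.card {g : G // g ∈ (⊤ : Subgroup G) ∧ g ^ p = 1 ∧
      ∀ h ∈ (⊤ : Subgroup G), g * h * g⁻¹ * h⁻¹ ∈ Subgroup.zpowers z} ≤ p := by
    by_contra hlt
    exact hno (h2 p hp2 G hG hc z hzc hzo ⊤ inferInstance (not_le.1 hlt))
  -- (2)
  set X := Xs z hzc with hX
  have hXn : X.Normal := Xs_normal hzc
  have hXp : IsPGroup p X := hG.to_subgroup X
  have hXcom : ∀ a b : X, a * b = b * a := by
    refine h4 p X hXp (h5 p X hXp (h6 p X (Xs_class hzc _ hp3))) ?_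
    refine le_trans (Nat.card_le_card_of_injective (fun g : {g : X // g ^ p = 1} =>
      (⟨((g : X) : G), trivial, ?_, ?_⟩ : {g : G // g ∈ (⊤ : Subgroup G) ∧ g ^ p = 1 ∧
      ∀ h ∈ (⊤ : Subgroup G), g * h * g⁻¹ * h⁻¹ ∈ Subgroup.zpowers z})) ?_) hsm
    · exact congrArg Subtype.val g.2
    · intro h _
      exact (g : X).2 h
    · intro a b hab
      have h8 := congrArg Subtype.val hab
      exact Subtype.ext (Subtype.ext h8)
  -- (3)
  obtain ⟨g, hgX, hgc⟩ := exists_noncentral hG hc hzc hzo hnc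
  -- (4)
  set D := Subgroup.centralizer (X : Set G) with hD
  have hDn : D.Normal := inferInstance
  have hDtop : D ≠ ⊤ := by
    intro h
    apply hgc
    rw [Subgroup.mem_center_iff]
    intro h'
    have h7 : h' ∈ D := by rw [h]; trivial
    exact (Subgroup.mem_centralizer_iff.1 h7 g hgX).symm
  have hXD : X ≤ D := by
    intro a ha
    rw [hD, Subgroup.mem_centralizer_iff]
    intro b hb
    exact congrArg Subtype.val (hXcom ⟨b, hb⟩ ⟨a, ha⟩)
  have hDp : IsPGroup p D := hG.to_subgroup D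
  have hzD : z ∈ D := Subgroup.center_le_centralizer _ hzc
  by_cases hDcom : ∀ a b : D, a * b = b * a
  · -- (5)
    have hDsm : Nat.card {d : D // d ^ p = 1} ≤ p := by
      by_contra hlt
      rw [not_le] at hlt
      let N : Subgroup G :=
        { carrier := {d | d ∈ D ∧ d ^ p = 1}
          one_mem' := ⟨D.one_mem, one_pow p⟩
          mul_mem' := by
            rintro a b ⟨ha, ha1⟩ ⟨hb, hb1⟩
            refine ⟨D.mul_mem ha hb, ?_⟩
            have hab : Commute a b := congrArg Subtype.val (hDcom ⟨a, ha⟩ ⟨b, hb⟩)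
            rw [hab.mul_pow, ha1, hb1, one_mul]
          inv_mem' := by
            rintro a ⟨ha, ha1⟩
            exact ⟨D.inv_mem ha, by rw [inv_pow, ha1, inv_one]⟩ }
      have hN : N.Normal := by
        constructor
        rintro a ⟨ha, ha1⟩ g
        exact ⟨hDn.conj_mem a ha g, by rw [conj_pow, ha1, mul_one, mul_inv_cancel]⟩
      refine hno (h1 p G hG hc N hN (fun n hn => hn.2) (lt_of_lt_of_le hlt ?_))
      refine Nat.card_le_card_of_injective (fun d : {d : D // d ^ p = 1} =>
        (⟨((d : D) : G), (d : D).2, congrArg Subtype.val d.2⟩ : N)) ?_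
      intro a b hab
      have h8 := congrArg Subtype.val hab
      exact Subtype.ext (Subtype.ext h8)
    have hDcyc : IsCyclic D := cyclic_of_small hDp hDcom hDsm
    have hXcyc : IsCyclic X := isCyclic_of_injective (Subgroup.inclusion hXD)
      (Subgroup.inclusion_injective hXD)
    obtain ⟨g0, hg0⟩ := hXcyc.exists_generator
    have hgen : ∀ x ∈ X, x ∈ Subgroup.zpowers (g0 : G) := by
      intro x hx
      obtain ⟨k, hk⟩ := hg0 ⟨x, hx⟩
      exact ⟨k, congrArg Subtype.val hk⟩
    have hDeq : D = Subgroup.centralizer ({(g0 : G)} : Set G) := by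
      apply le_antisymm
      · exact Subgroup.centralizer_le (Set.singleton_subset_iff.2 g0.2)
      · intro d hd
        rw [hD, Subgroup.mem_centralizer_iff]
        intro x hx
        rw [Subgroup.mem_centralizer_singleton_iff] at hd
        obtain ⟨k, rfl⟩ := hgen x hx
        have h7 : Commute d (g0 : G) := hd
        exact (h7.zpow_right k).symm
    have hg0c : (g0 : G) ∉ Subgroup.center G := by
      intro h
      apply hDtop
      rw [hDeq, Subgroup.centralizer_eq_top_iff_subset, Set.singleton_subset_iff]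
      exact h
    have hcard : Nat.card G = p * Nat.card D := by
      rw [hDeq]
      exact card_centralizer hzc hzo g0.2 hg0c
    have hall := h3 p hp2 G hG hc z hzc hzo D hDn hDcyc hcard
    apply hnc
    intro a b
    exact congrArg Subtype.val (hXcom ⟨a, fun h => hall a h⟩ ⟨b, fun h => hall b h⟩)
  · -- (6)
    have hDc : CenSmall p D := by
      by_contra hlt
      unfold CenSmall at hlt
      rw [not_le] at hlt
      let N : Subgroup G :=
        { carrier := {t | t ∈ D ∧ (∀ d ∈ D, d * t = t * d) ∧ t ^ p = 1}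
          one_mem' := ⟨D.one_mem, fun d _ => by rw [mul_one, one_mul], one_pow p⟩
          mul_mem' := by
            rintro a b ⟨ha, ha1, ha2⟩ ⟨hb, hb1, hb2⟩
            refine ⟨D.mul_mem ha hb, fun d hd => ?_, ?_⟩
            · rw [← mul_assoc, ha1 d hd, mul_assoc, hb1 d hd, mul_assoc]
            · have hab : Commute a b := hb1 a ha
              rw [hab.mul_pow, ha2, hb2, one_mul]
          inv_mem' := by
            rintro a ⟨ha, ha1, ha2⟩
            refine ⟨D.inv_mem ha, fun d hd => ?_, by rw [inv_pow, ha2, inv_one]⟩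
            have hab : Commute d a := ha1 d hd
            exact hab.inv_right }
      have hN : N.Normal := by
        constructor
        rintro a ⟨ha, ha1, ha2⟩ g
        refine ⟨hDn.conj_mem a ha g, fun d hd => ?_,
          by rw [conj_pow, ha2, mul_one, mul_inv_cancel]⟩
        have h7 := ha1 _ (hDn.conj_mem d hd g⁻¹)
        rw [inv_inv] at h7
        calc d * (g * a * g⁻¹) = g * ((g⁻¹ * d * g) * a) * g⁻¹ := by group
          _ = g * (a * (g⁻¹ * d * g)) * g⁻¹ := by rw [h7]
          _ = g * a * g⁻¹ * d := by group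
      refine hno (h1 p G hG hc N hN (fun n hn => hn.2.2) (lt_of_lt_of_le hlt ?_))
      refine Nat.card_le_card_of_injective
        (fun t : {t : D // t ∈ Subgroup.center D ∧ t ^ p = 1} =>
        (⟨((t : D) : G), (t : D).2, fun d hd => congrArg Subtype.val
          (Subgroup.mem_center_iff.1 t.2.1 ⟨d, hd⟩), congrArg Subtype.val t.2.2⟩ : N)) ?_
      intro a b hab
      have h8 := congrArg Subtype.val hab
      exact Subtype.ext (Subtype.ext h8)
    have hlt : Nat.card D < n := by
      rw [← hn]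
      refine lt_of_le_of_ne (Subgroup.card_le_card_group D) fun h => hDtop ?_
      exact Subgroup.eq_top_of_card_eq D h
    obtain ⟨e', z', he1, he2, he3, he4, he5⟩ := ih _ hlt D rfl hDp hDc hDcom
    have hz'z : (z' : G) ∈ Subgroup.zpowers z := by
      -- `z` is in the center of `D`, so in `zpowers z'`
      have h7 : (⟨z, hzD⟩ : D) ∈ Subgroup.zpowers z' := by
        refine cen_gen hDc he3 he4 ?_ ?_
        · rw [Subgroup.mem_center_iff]
          intro d
          exact Subtype.ext (Subgroup.mem_center_iff.1 hzc d)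
        · apply Subtype.ext
          show z ^ p = 1
          rw [← hzo, pow_orderOf_eq_one]
      obtain ⟨k, hk⟩ := h7
      have h8 : (z' : G) ^ k = z := congrArg Subtype.val hk
      have h9 : Subgroup.zpowers z ≤ Subgroup.zpowers (z' : G) := by
        rw [Subgroup.zpowers_le]
        exact ⟨k, h8⟩
      have h10 : Subgroup.zpowers z = Subgroup.zpowers (z' : G) := by
        refine Subgroup.eq_of_le_of_card_ge h9 ?_
        rw [Nat.card_zpowers, Nat.card_zpowers, hzo, Subgroup.orderOf_coe, he4]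
      rw [h10]
      exact Subgroup.mem_zpowers _
    have he'P : (e' : G) ∈ D ∧ (e' : G) ^ p = 1 ∧
        ∀ h ∈ D, (e' : G) * h * (e' : G)⁻¹ * h⁻¹ ∈ Subgroup.zpowers z := by
      refine ⟨e'.2, congrArg Subtype.val he1, fun h hh => ?_⟩
      obtain ⟨m, hm⟩ := he5 ⟨h, hh⟩
      have h7 : h * (e' : G) * h⁻¹ = (e' : G) * (z' : G) ^ m := congrArg Subtype.val hm
      have h8 : (e' : G) * h * (e' : G)⁻¹ * h⁻¹ =
          (e' : G) * (h * (e' : G) * h⁻¹)⁻¹ := by group
      have h9 : (e' : G) * (h * (e' : G) * h⁻¹)⁻¹ ∈ Subgroup.zpowers z := by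
        rw [h7, mul_inv_rev]
        have h10 : ((z' : G) ^ m)⁻¹ ∈ Subgroup.zpowers z :=
          Subgroup.inv_mem _ (Subgroup.pow_mem _ hz'z m)
        have h11 := Subgroup.mem_center_iff.1 (cen_of_mem_zpowers hzc h10) (e' : G)
        rw [← mul_assoc, h11, mul_inv_cancel_right]
        exact h10
      rw [h8]
      exact h9
    refine hno (h2 p hp2 G hG hc z hzc hzo D hDn ?_)
    by_contra hle
    rw [not_lt] at hle
    have h7 : (e' : G) ∈ Subgroup.zpowers z := by
      refine mem_zpowers_of_small (fun g => g ∈ D ∧ g ^ p = 1 ∧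
        ∀ h ∈ D, g * h * g⁻¹ * h⁻¹ ∈ Subgroup.zpowers z) hzo ?_ hle he'P
      intro t ht
      refine ⟨Subgroup.center_le_centralizer _ (cen_of_mem_zpowers hzc ht),
        pow_of_mem_zpowers hzo ht, fun h _ => ?_⟩
      have h8 := Subgroup.mem_center_iff.1 (cen_of_mem_zpowers hzc ht) h
      rw [← h8, mul_inv_cancel_right, mul_inv_cancel]
      exact Subgroup.one_mem _
    apply he2
    rw [Subgroup.mem_center_iff]
    intro d
    exact Subtype.ext (Subgroup.mem_center_iff.1 (cen_of_mem_zpowers hzc h7) d)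

theorem oddpair : S_NPAIR → S_OMX → S_CYCP → S_CYC → S_FALL → S_CLREG → S_ODDPAIR := by
  intro h1 h2 h3 h4 h5 h6 p _ hp2 G _ _ hG hc hnc
  exact oddpair_aux h1 h2 h3 h4 h5 h6 p hp2 _ G rfl hG hc hnc

end Pool.Agent.Q224.RPB
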